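import Pool.Agent.Helper69.DC.Goals2

/-!
# Project DC (MP_628424_an), packet DQ
-/

namespace Pool.Agent.Helper18.DC

open Finset

theorem h_dq : Pool.Agent.Helper69.DC.H_DQ := by
  intro d M q A hinj
  set W := Submodule.span ℂ (Set.range fun j : Fin (d + 1) => A j) with hW
  have hA : ∀ j ∈ range (d + 1), A j ∈ W := fun j hj =>
    Submodule.subset_span ⟨⟨j, Finset.mem_range.1 hj⟩, rfl⟩
  let ext : (Fin (d + q) → ℂ) → ℕ → ℂ := fun κ j => if h : j < d + q then κ ⟨j, h⟩ else 0
  have ext_add : ∀ x y j, ext (x + y) j = ext x j + ext y j := by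
    intro x y j
    simp only [ext]
    split_ifs
    · rfl
    · simp
  have ext_smul : ∀ (c : ℂ) x j, ext (c • x) j = c * ext x j := by
    intro c x j
    simp only [ext]
    split_ifs
    · rfl
    · simp
  let L : (Fin (d + q) → ℂ) →ₗ[ℂ] (Fin q → W) :=
    { toFun := fun κ l => ⟨∑ j ∈ range (d + 1), ext κ (j + l) • A j,
        Submodule.sum_mem _ fun j hj => Submodule.smul_mem _ _ (hA j hj)⟩
      map_add' := by
        intro x y
        funext l
        apply Subtype.ext
        show ∑ j ∈ range (d + 1), ext (x + y) (j + l) • A j = _ + _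
        rw [← Finset.sum_add_distrib]
        exact Finset.sum_congr rfl fun j _ => by rw [ext_add, add_smul]
      map_smul' := by
        intro c x
        funext l
        apply Subtype.ext
        show ∑ j ∈ range (d + 1), ext (c • x) (j + l) • A j = c • _
        rw [Finset.smul_sum]
        exact Finset.sum_congr rfl fun j _ => by rw [ext_smul, mul_smul] }
  have hL : Function.Injective L := by
    rw [injective_iff_map_eq_zero]
    intro κ hκ
    have h1 := hinj (ext κ) (fun l hl => by
      have h2 := congrFun hκ ⟨l, hl⟩
      exact congrArg Subtype.val h2)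
    funext j
    have h3 := h1 j j.2
    simp only [ext, j.2, dif_pos] at h3
    exact h3
  have h := LinearMap.finrank_le_finrank_of_injective hL
  rw [Module.finrank_fintype_fun_eq_card, Fintype.card_fin, Module.finrank_pi_fintype] at h
  simpa using h

end Pool.Agent.Helper18.DC
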